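import Mathlib
import Pool.Agent.N702.Fan

open TopologicalSpace Set Filter Topology

namespace Pool.Agent.Results.MP_85483e_gt.ConeRetract

universe u

/-- `C(M)` is a retract of `2^M`: there is a map `r` from the nonempty compact subsets of `M`
to the nonempty compact subsets of `M`, continuous for the Vietoris (Hausdorff metric) topology,
whose values are connected and which fixes every connected set. -/
def CIsRetract (M : Type u) [TopologicalSpace M] : Prop :=
  ∃ r : NonemptyCompacts M → NonemptyCompacts M, Continuous r ∧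
    (∀ A : NonemptyCompacts M, IsConnected (r A : Set M)) ∧
    ∀ A : NonemptyCompacts M, IsConnected (A : Set M) → r A = A

/-- The equivalence relation on `Z × [0,1]` whose only nontrivial class is `Z × {1}`. -/
def coneSetoid (Z : Type u) : Setoid (Z × unitInterval) where
  r p q := p = q ∨ (p.2 = 1 ∧ q.2 = 1)
  iseqv :=
    { refl := fun _ => Or.inl rfl
      symm := fun h => h.elim (fun h => Or.inl h.symm) (fun h => Or.inr ⟨h.2, h.1⟩)
      trans := by
        rintro p q s (rfl | h1) (rfl | h2)
        · exact Or.inl rfl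
        · exact Or.inr h2
        · exact Or.inr h1
        · exact Or.inr ⟨h1.1, h2.2⟩ }

/-- The cone over `Z`, with the quotient topology. -/
def Cone (Z : Type u) : Type u := Quotient (coneSetoid Z)

instance (Z : Type u) [TopologicalSpace Z] : TopologicalSpace (Cone Z) :=
  inferInstanceAs (TopologicalSpace (Quotient (coneSetoid Z)))

noncomputable section

section emb

variable {Z : Type u} [MetricSpace Z] [CompactSpace Z]

lemma exists_emb [Nonempty Z] [TotallyDisconnectedSpace Z] :
    ∃ e : Z → ℝ, Continuous e ∧ Function.Injective e ∧ ∀ z, e z ∈ Icc (0 : ℝ) 1 := by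
  classical
  have hc : Countable (Clopens Z) :=
    TopologicalSpace.Clopens.countable_iff_secondCountable.mpr inferInstance
  obtain ⟨f, hf⟩ := exists_surjective_nat (Clopens Z)
  have hsum : Summable (fun n : ℕ => (1 / 3 : ℝ) ^ n) :=
    summable_geometric_of_lt_one (by norm_num) (by norm_num)
  refine ⟨fun z => 2 / 3 * Cardinal.cantorFunction (1 / 3) (fun n => decide (z ∈ f n)), ?_, ?_, ?_⟩
  · apply Continuous.mul continuous_const
    unfold Cardinal.cantorFunction
    apply continuous_tsum (u := fun n : ℕ => (1 / 3 : ℝ) ^ n) _ hsum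
    · intro n z
      unfold Cardinal.cantorFunctionAux
      by_cases h : z ∈ f n
      · simp [h]
      · simp [h]
    · intro n
      have : IsClopen (f n : Set Z) := (f n).isClopen
      have h2 : Continuous ((f n : Set Z).indicator (fun _ => (1 / 3 : ℝ) ^ n)) :=
        continuous_const.indicator (by rw [this.frontier_eq]; simp)
      convert h2 using 1
      funext z
      unfold Cardinal.cantorFunctionAux
      by_cases h : z ∈ f n
      · simp [h]
      · simp [h]
  · intro z z' h
    have h' : Cardinal.cantorFunction (1 / 3) (fun n => decide (z ∈ f n)) =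
        Cardinal.cantorFunction (1 / 3) (fun n => decide (z' ∈ f n)) := by
      simpa using h
    have h2 := Cardinal.cantorFunction_injective (by norm_num) (by norm_num) h'
    by_contra hne
    obtain ⟨U, hU, h1, h3⟩ := exists_isClopen_of_totally_separated hne
    obtain ⟨n, hn⟩ := hf ⟨U, hU⟩
    have := congrFun h2 n
    simp only [decide_eq_decide] at this
    rw [hn] at this
    exact h3 (this.mp h1)
  · intro z
    have h0 : ∀ n, 0 ≤ Cardinal.cantorFunctionAux (1 / 3) (fun n => decide (z ∈ f n)) n :=
      fun n => Cardinal.cantorFunctionAux_nonneg (by norm_num)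
    have hs := Cardinal.summable_cantor_function (c := 1 / 3) (fun n => decide (z ∈ f n))
      (by norm_num) (by norm_num)
    constructor
    · apply mul_nonneg (by norm_num)
      exact tsum_nonneg h0
    · have h1 : Cardinal.cantorFunction (1 / 3) (fun n => decide (z ∈ f n)) ≤
          ∑' n : ℕ, (1 / 3 : ℝ) ^ n := by
        unfold Cardinal.cantorFunction
        apply hs.tsum_le_tsum _ hsum
        intro n
        unfold Cardinal.cantorFunctionAux
        by_cases h : z ∈ f n
        · simp [h]
        · simp [h]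
      rw [tsum_geometric_of_lt_one (by norm_num) (by norm_num)] at h1
      linarith

lemma dense_compl_range [TotallyDisconnectedSpace Z] {e : Z → ℝ} (he : Continuous e)
    (hi : Function.Injective e) : Dense (range e)ᶜ := by
  rw [← interior_eq_empty_iff_dense_compl]
  by_contra hne
  obtain ⟨x, hx⟩ := nonempty_iff_ne_empty.mpr hne
  obtain ⟨ε, hε, hb⟩ := Metric.isOpen_iff.mp isOpen_interior x hx
  have hsub : Icc x (x + ε / 2) ⊆ range e := by
    intro y hy
    apply interior_subset (hb _)
    rw [Metric.mem_ball, Real.dist_eq, abs_of_nonneg (by linarith [hy.1])]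
    linarith [hy.2]
  have hemb : IsClosedEmbedding e := he.isClosedEmbedding hi
  have hpre : IsPreconnected (e ⁻¹' Icc x (x + ε / 2)) := by
    rw [← hemb.isEmbedding.isInducing.isPreconnected_image, image_preimage_eq_of_subset hsub]
    exact isPreconnected_Icc
  have hss := hpre.subsingleton
  obtain ⟨z, hz⟩ := hsub ⟨le_rfl, by linarith⟩
  obtain ⟨z', hz'⟩ := hsub (⟨by linarith, le_rfl⟩ : x + ε / 2 ∈ Icc x (x + ε / 2))
  have : z = z' := hss (by rw [mem_preimage, hz]; exact ⟨le_rfl, by linarith⟩)
    (by rw [mem_preimage, hz']; exact ⟨by linarith, le_rfl⟩)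
  rw [this, hz'] at hz
  linarith

/-- The map from the cone to the plane. -/
def jj (e : Z → ℝ) : Cone Z → ℝ × ℝ :=
  Quotient.lift (s := coneSetoid Z)
    (fun p => ((1 - (p.2 : ℝ)) * e p.1, 1 - (p.2 : ℝ))) (by
    rintro p q (rfl | ⟨h1, h2⟩)
    · rfl
    · simp [h1, h2])

lemma jj_mk (e : Z → ℝ) (p : Z × unitInterval) :
    jj e (Quotient.mk (coneSetoid Z) p) = ((1 - (p.2 : ℝ)) * e p.1, 1 - (p.2 : ℝ)) := rfl

lemma continuous_jj {e : Z → ℝ} (he : Continuous e) : Continuous (jj e) := by
  apply Continuous.quotient_lift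
  fun_prop

lemma injective_jj {e : Z → ℝ} (hi : Function.Injective e) : Function.Injective (jj e) := by
  intro x y
  induction x using Quotient.inductionOn with | _ p
  induction y using Quotient.inductionOn with | _ q
  intro h
  rw [jj_mk, jj_mk, Prod.mk.injEq] at h
  apply Quotient.sound
  have h2 : (p.2 : ℝ) = q.2 := by linarith [h.2]
  have h2' : p.2 = q.2 := Subtype.ext h2
  by_cases h3 : p.2 = 1
  · exact Or.inr ⟨h3, h2' ▸ h3⟩
  · left
    have h4 : (1 - (p.2 : ℝ)) ≠ 0 := by
      intro h5
      apply h3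
      apply Subtype.ext
      show (p.2 : ℝ) = 1
      linarith
    rw [← h2] at h
    exact Prod.ext (hi (mul_left_cancel₀ h4 h.1)) h2'

lemma range_jj (e : Z → ℝ) : range (jj e) = N702.Fan.ME (range e) := by
  ext x
  constructor
  · rintro ⟨y, rfl⟩
    induction y using Quotient.inductionOn with | _ p
    rw [jj_mk]
    exact ⟨e p.1, ⟨p.1, rfl⟩, 1 - (p.2 : ℝ), by linarith [p.2.2.2], by linarith [p.2.2.1], rfl⟩
  · rintro ⟨_, ⟨z, rfl⟩, t, h0, h1, rfl⟩
    refine ⟨Quotient.mk (coneSetoid Z) (z, ⟨1 - t, by linarith, by linarith⟩), ?_⟩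
    rw [jj_mk]
    simp

instance : CompactSpace (Cone Z) :=
  inferInstanceAs (CompactSpace (Quotient (coneSetoid Z)))

lemma closedEmb_jj {e : Z → ℝ} (he : Continuous e) (hi : Function.Injective e) :
    IsClosedEmbedding (jj e) :=
  (continuous_jj he).isClosedEmbedding (injective_jj hi)

theorem retract_of_totDisc (Z : Type u) [MetricSpace Z] [CompactSpace Z] [Nonempty Z]
    [TotallyDisconnectedSpace Z] : CIsRetract (Cone Z) := by
  obtain ⟨e, he, hi, he01⟩ := exists_emb (Z := Z)
  have hT2 : T2Space (Cone Z) := T2Space.of_injective_continuous (injective_jj hi) (continuous_jj he)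
  exact N702.Fan.transfer (E := range e) (range_subset_iff.mpr he01) (dense_compl_range he hi)
    (jj e) (closedEmb_jj he hi) (range_jj e)

lemma totDisc_of_unique (h : ∃! p : Z, AccPt p (𝓟 (univ : Set Z))) :
    TotallyDisconnectedSpace Z := by
  obtain ⟨p, hp, hu⟩ := h
  have key : ∀ x : Z, x ≠ p → IsOpen ({x} : Set Z) := by
    intro x hx
    rw [isOpen_singleton_iff_punctured_nhds]
    by_contra hne
    apply hx
    apply hu
    rw [AccPt, principal_univ, inf_top_eq]
    exact ⟨hne⟩
  have key2 : ∀ t : Set Z, IsPreconnected t → ∀ x ∈ t, ∀ y ∈ t, x ≠ p → x = y := by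
    intro t ht x hx y hy hxp
    have hcl : IsClopen ({x} : Set Z) := ⟨isClosed_singleton, key x hxp⟩
    have := ht.subset_isClopen hcl ⟨x, hx, rfl⟩ hy
    exact this.symm
  constructor
  intro t _ ht x hx y hy
  by_cases h1 : x = p
  · by_cases h2 : y = p
    · rw [h1, h2]
    · exact (key2 t ht y hy x hx h2).symm
  · exact key2 t ht x hx y hy h1

lemma not_locConn [TotallyDisconnectedSpace Z] {p : Z} (hp : AccPt p (𝓟 (univ : Set Z))) :
    ¬ LocallyConnectedSpace (Cone Z) := by
  intro hlc
  have : Nonempty Z := ⟨p⟩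
  obtain ⟨e, he, hi, he01⟩ := exists_emb (Z := Z)
  have hd := dense_compl_range he hi
  have hE : range e ⊆ Icc 0 1 := range_subset_iff.mpr he01
  set U : Set (Cone Z) := jj e ⁻¹' {x : ℝ × ℝ | 0 < x.2} with hU
  have hUo : IsOpen U := N702.Fan.isOpen_pos.preimage (continuous_jj he)
  set b : Z → Cone Z := fun z => Quotient.mk (coneSetoid Z) (z, 0) with hb
  have hbc : Continuous b := continuous_quotient_mk'.comp (by fun_prop)
  have hjb : ∀ z, jj e (b z) = (e z, 1) := by
    intro z
    rw [hb]
    simp only
    rw [jj_mk]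
    simp
  have hbU : ∀ z, b z ∈ U := by
    intro z
    rw [hU, mem_preimage, hjb]
    exact (zero_lt_one : (0 : ℝ) < 1)
  have hCo : IsOpen (connectedComponentIn U (b p)) := hUo.connectedComponentIn
  have hpre : IsPreconnected (connectedComponentIn U (b p)) := isPreconnected_connectedComponentIn
  have hmem : b p ∈ connectedComponentIn U (b p) := mem_connectedComponentIn (hbU p)
  have hev : ∀ᶠ z in 𝓝 p, b z ∈ connectedComponentIn U (b p) :=
    hbc.continuousAt.eventually (hCo.mem_nhds hmem)
  rw [AccPt, principal_univ, inf_top_eq] at hp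
  have hev2 : ∀ᶠ z in 𝓝[≠] p, b z ∈ connectedComponentIn U (b p) ∧ z ≠ p :=
    (hev.filter_mono nhdsWithin_le_nhds).and self_mem_nhdsWithin
  obtain ⟨q, hq, hqp⟩ := hev2.exists
  have hrc : ContinuousOn (fun x : Cone Z => (jj e x).1 / (jj e x).2) U := by
    apply ContinuousOn.comp (t := {x : ℝ × ℝ | 0 < x.2}) N702.Fan.continuousOn_ratio
      (continuous_jj he).continuousOn
    intro x hx
    exact hx
  have him : IsPreconnected ((fun x : Cone Z => (jj e x).1 / (jj e x).2) ''
      connectedComponentIn U (b p)) :=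
    hpre.image _ (hrc.mono (connectedComponentIn_subset _ _))
  have himE : (fun x : Cone Z => (jj e x).1 / (jj e x).2) '' connectedComponentIn U (b p) ⊆
      range e := by
    rintro _ ⟨x, hx, rfl⟩
    have hx1 : jj e x ∈ N702.Fan.ME (range e) := by rw [← range_jj]; exact ⟨x, rfl⟩
    have hx2 : x ∈ U := connectedComponentIn_subset _ _ hx
    exact (N702.Fan.eq_of_mem hE hx1 hx2).1
  have hp1 : e p ∈ (fun x : Cone Z => (jj e x).1 / (jj e x).2) '' connectedComponentIn U (b p) :=
    ⟨b p, hmem, by simp [hjb]⟩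
  have hq1 : e q ∈ (fun x : Cone Z => (jj e x).1 / (jj e x).2) '' connectedComponentIn U (b p) :=
    ⟨b q, hq, by simp [hjb]⟩
  have hne : e q ≠ e p := fun h => hqp (hi h)
  rcases lt_or_gt_of_ne hne with h | h
  · obtain ⟨c, h1, h2, h3⟩ := N702.Fan.exists_gap hE hd h
    exact h3 (himE (him.Icc_subset hq1 hp1 ⟨h1.le, h2.le⟩))
  · obtain ⟨c, h1, h2, h3⟩ := N702.Fan.exists_gap hE hd h
    exact h3 (himE (him.Icc_subset hp1 hq1 ⟨h1.le, h2.le⟩))

lemma continuum [Nonempty Z] [TotallyDisconnectedSpace Z] :
    ConnectedSpace (Cone Z) ∧ MetrizableSpace (Cone Z) := by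
  obtain ⟨e, he, hi, he01⟩ := exists_emb (Z := Z)
  have hemb := closedEmb_jj he hi
  constructor
  · rw [connectedSpace_iff_univ]
    obtain ⟨z⟩ := ‹Nonempty Z›
    refine ⟨⟨Quotient.mk (coneSetoid Z) (z, 0), trivial⟩, ?_⟩
    rw [← hemb.isEmbedding.isInducing.isPreconnected_image, image_univ, range_jj]
    have hstar : StarConvex ℝ (0 : ℝ × ℝ) (N702.Fan.ME (range e)) := by
      rw [starConvex_zero_iff]
      rintro _ ⟨k, hk, t, h0, h1, rfl⟩ a ha0 ha1
      refine ⟨k, hk, a * t, by positivity, by nlinarith, ?_⟩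
      simp [mul_assoc]
    have h0 : (0 : ℝ × ℝ) ∈ N702.Fan.ME (range e) :=
      ⟨e z, ⟨z, rfl⟩, 0, le_rfl, zero_le_one, by simp; rfl⟩
    exact (hstar.isPathConnected h0).isConnected.isPreconnected
  · exact hemb.isEmbedding.metrizableSpace

end emb

/-- (1) For every nonempty compact totally disconnected metric space `Z`, `C(M)` is a retract of
`2^M` for the cone `M` over `Z`. (2) In particular this holds when `Z` has exactly one limit point,
and then the cone is a continuum (compact, connected, metrizable) that is not locally connected. -/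
theorem result :
    (∀ (Z : Type u) [MetricSpace Z] [CompactSpace Z] [Nonempty Z] [TotallyDisconnectedSpace Z],
      CIsRetract (Cone Z)) ∧
    (∀ (Z : Type u) [MetricSpace Z] [CompactSpace Z], (∃! p : Z, AccPt p (𝓟 (univ : Set Z))) →
      CIsRetract (Cone Z) ∧ CompactSpace (Cone Z) ∧ ConnectedSpace (Cone Z) ∧
        MetrizableSpace (Cone Z) ∧ ¬ LocallyConnectedSpace (Cone Z)) := by
  refine ⟨fun Z _ _ _ _ => retract_of_totDisc Z, fun Z _ _ h => ?_⟩
  have := totDisc_of_unique h
  obtain ⟨p, hp, hu⟩ := h
  have : Nonempty Z := ⟨p⟩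
  exact ⟨retract_of_totDisc Z, inferInstance, continuum.1, continuum.2, not_locConn hp⟩

end

end Pool.Agent.Results.MP_85483e_gt.ConeRetract
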